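import Mathlib
import Pool.Agent.Lib.MP_2f3286_ag.Koe.Twist
import Pool.Agent.Lib.MP_2f3286_bir.Place

/-!
# Values of fixed elements at the local places of a section
-/

open IsDedekindDomain NumberField WithZero
open Pool.Agent.Lib.MP_2f3286_ag
open Pool.Agent.Lib.MP_2f3286_bir (IsPlaceOf)

namespace Pool.Agent.Lib.MP_2f3286_ag.PD

section value

variable {k kb K Ω : Type*} [Field k] [Field kb] [Algebra k kb] [IsGalois k kb] [Field K] [Field Ω]
  [Algebra K Ω] [Algebra kb Ω] {s : Gal(kb/k) →* Gal(Ω/K)}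
  {E Eb : Type*} [Field E] [Field Eb] [Algebra k E] [Algebra E Eb] [Algebra k Eb]
  [IsScalarTower k E Eb] [IsGalois E Eb] {ι : kb →ₐ[k] Eb} {A : ValuationSubring Ω} {φ : A →+* Eb}

/-- the value of a fixed element lies in the local field -/
theorem fixed_value (h : IsPlaceOf s E (ι : kb →+* Eb) A φ) {y : Ω} (hy : ∀ σ, s σ y = y)
    (hyA : y ∈ A) : ∃ x : E, φ ⟨y, hyA⟩ = algebraMap E Eb x := by
  obtain ⟨x, hx⟩ := mem_of_fixed (F := E) (Fb := Eb) (y := φ ⟨y, hyA⟩) (by
    intro τ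
    obtain ⟨σ, hσ⟩ := exists_restrict ι τ
    obtain ⟨h1, h2⟩ := h.2.2 σ τ hσ ⟨y, hyA⟩
    rw [← h2]
    congr 1
    exact Subtype.ext (hy σ))
  exact ⟨x, hx.symm⟩

omit [IsGalois k kb] [IsGalois E Eb] in
/-- constants -/
theorem const_value [Algebra k Ω] [IsScalarTower k kb Ω] (h : IsPlaceOf s E (ι : kb →+* Eb) A φ)
    (c : k) : ∃ h' : algebraMap k Ω c ∈ A, φ ⟨algebraMap k Ω c, h'⟩ = algebraMap E Eb (algebraMap k E c) := by
  obtain ⟨h1, h2⟩ := h.1 (algebraMap k kb c)
  have h3 : algebraMap k Ω c = algebraMap kb Ω (algebraMap k kb c) :=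
    IsScalarTower.algebraMap_apply k kb Ω c
  refine ⟨h3 ▸ h1, ?_⟩
  have h4 : (⟨algebraMap k Ω c, h3 ▸ h1⟩ : A) = ⟨_, h1⟩ := Subtype.ext h3
  rw [h4, h2]
  change ι (algebraMap k kb c) = _
  rw [AlgHom.commutes, ← IsScalarTower.algebraMap_apply]

end value

section kummer

variable {k : Type*} [Field k] [NumberField k] {kb : Type*} [Field kb] [Algebra k kb]
  [IsAlgClosed kb] [Algebra.IsAlgebraic k kb] {K : Type*} [Field K]
  {Ω : Type*} [Field Ω] [Algebra K Ω] [Algebra.IsAlgebraic K Ω] [IsAlgClosed Ω]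
  [Algebra kb Ω] [Algebra k Ω] [IsScalarTower k kb Ω]

/-- a fixed element is an integer of `k` times the square of a fixed element -/
theorem exists_square_int (s : Gal(kb/k) →* Gal(Ω/K)) (hs : Continuous s)
    (hsec : ∀ σ a, s σ (algebraMap kb Ω a) = algebraMap kb Ω (σ a)) {f : Ω} (hf : ∀ σ, s σ f = f)
    (hf0 : f ≠ 0) : ∃ x : 𝓞 k, x ≠ 0 ∧ ∃ y : Ω, (∀ σ, s σ y = y) ∧ y ≠ 0 ∧
      f = algebraMap k Ω x * y ^ 2 := by
  have hchar : CharZero kb := charZero_of_injective_algebraMap (algebraMap k kb).injective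
  have : IsAlgClosure k kb := ⟨inferInstance, inferInstance⟩
  have hgal : IsGalois k kb := ⟨⟩
  obtain ⟨d, hd, l, hl, h⟩ := Koe.exists_square (F := k) s hs hsec (x := f)
    (fun σ _ => hf σ) hf0
  obtain ⟨p, q, hq, hpq⟩ := IsFractionRing.div_surjective (A := 𝓞 k) d
  have hq0 : q ≠ 0 := nonZeroDivisors.ne_zero hq
  have hq0' : (q : k) ≠ 0 := fun h => hq0 (RingOfIntegers.ext h)
  have hp0 : p ≠ 0 := by
    rintro rfl
    apply hd
    rw [← hpq]
    simp
  have hqΩ : algebraMap k Ω q ≠ 0 := by rwa [Ne, map_eq_zero]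
  have hl' : ∀ σ, s σ l = l := fun σ => hl σ fun a => σ.commutes a
  have hl0 : l ≠ 0 := by
    rintro rfl
    apply hf0
    rw [h]; ring
  refine ⟨p * q, mul_ne_zero hp0 hq0, l / algebraMap k Ω q, fun σ => ?_, div_ne_zero hl0 hqΩ, ?_⟩
  · rw [map_div₀, hl']
    congr 1
    rw [IsScalarTower.algebraMap_apply k kb Ω, hsec, AlgEquiv.commutes]
  · rw [h, ← hpq]
    have e1 : ((p * q : 𝓞 k) : k) = (p : k) * (q : k) := rfl
    change algebraMap k Ω ((p : k) / (q : k)) * l ^ 2 = algebraMap k Ω ((p * q : 𝓞 k) : k) * _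
    rw [e1, map_mul, map_div₀]
    field_simp

end kummer

section num

variable {k : Type*} [Field k] [NumberField k]

theorem val_of_notMem {v : HeightOneSpectrum (𝓞 k)} {x : 𝓞 k} (hx : x ∉ v.asIdeal) :
    Valued.v (algebraMap k (v.adicCompletion k) x) = 1 := by
  rw [val_alg]
  exact (HeightOneSpectrum.valuation_eq_one_iff_notMem v).mpr hx

/-- a local square congruent to a unit `x` gives a root of `x` in the residue field -/
theorem residue_root (v : HeightOneSpectrum (𝓞 k)) (x : 𝓞 k) (hx : x ∉ v.asIdeal)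
    (z : v.adicCompletion k)
    (hz : Valued.v (algebraMap k (v.adicCompletion k) x * z ^ 2 - 1) < 1) :
    ∃ r : 𝓞 k, r ^ 2 - x ∈ v.asIdeal := by
  have hx1 := val_of_notMem hx
  have h1 : Valued.v (algebraMap k (v.adicCompletion k) x * z ^ 2) = 1 := by
    have h2 : algebraMap k (v.adicCompletion k) x * z ^ 2 =
        (algebraMap k (v.adicCompletion k) x * z ^ 2 - 1) + 1 := by ring
    rw [h2]
    exact (Valuation.map_add_eq_of_lt_right _ (by rwa [map_one])).trans (map_one _)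
  rw [map_mul, hx1, one_mul, map_pow] at h1
  have hz1 : Valued.v z = 1 := (pow_eq_one_iff_of_nonneg zero_le two_ne_zero).mp h1
  have hz0 : z ≠ 0 := by
    rintro rfl
    rw [map_zero] at hz1
    exact zero_ne_one hz1
  have hzi : Valued.v z⁻¹ = 1 := by rw [map_inv₀, hz1, inv_one]
  obtain ⟨y, hy⟩ := exists_approx v z⁻¹ 1
  have hlt : exp (-((1 : ℕ) : ℤ)) < (1 : WithZero (Multiplicative ℤ)) := by
    rw [← exp_zero]
    exact exp_lt_exp.mpr (by norm_num)
  have hy1 : v.valuation k y = 1 := by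
    rw [← val_alg]
    have : algebraMap k (v.adicCompletion k) y = z⁻¹ - (z⁻¹ - algebraMap k (v.adicCompletion k) y) := by
      simp
    rw [this, Valuation.map_sub_eq_of_lt_left, hzi]
    rw [hzi]; exact lt_of_le_of_lt hy hlt
  obtain ⟨a, ha⟩ := HeightOneSpectrum.exists_valuation_sub_lt_of_integer v hy1.le 1
  simp only [Units.val_one] at ha
  have hza : Valued.v (z⁻¹ - algebraMap k (v.adicCompletion k) (algebraMap (𝓞 k) k a)) < 1 := by
    have : z⁻¹ - algebraMap k (v.adicCompletion k) (algebraMap (𝓞 k) k a) =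
      (z⁻¹ - algebraMap k (v.adicCompletion k) y) - algebraMap k (v.adicCompletion k)
        (algebraMap (𝓞 k) k a - y) := by rw [map_sub]; ring
    rw [this]
    refine lt_of_le_of_lt (Valued.v.map_sub _ _) (max_lt (lt_of_le_of_lt hy hlt) ?_)
    rw [val_alg]; exact ha
  refine ⟨a, ?_⟩
  rw [← HeightOneSpectrum.valuation_lt_one_iff_mem (K := k), ← val_alg]
  have h2 : algebraMap k (v.adicCompletion k) (algebraMap (𝓞 k) k (a ^ 2 - x)) =
      ((algebraMap k (v.adicCompletion k) (algebraMap (𝓞 k) k a)) ^ 2 - (z⁻¹) ^ 2) -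
      (algebraMap k (v.adicCompletion k) x * z ^ 2 - 1) * (z⁻¹) ^ 2 := by
    rw [map_sub, map_pow, map_sub, map_pow]
    field_simp
    ring
  rw [h2]
  refine lt_of_le_of_lt (Valued.v.map_sub _ _) (max_lt ?_ ?_)
  · refine lt_of_le_of_lt (val_pow_sub_pow_le Valued.v ?_ hzi.le 2) ?_
    · rw [val_alg]
      exact HeightOneSpectrum.valuation_le_one v a
    · rw [Valuation.map_sub_swap]; exact hza
  · rw [map_mul, map_pow, hzi, one_pow, mul_one]
    exact hz

/-- an element close to `x (1 + π)` -/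
theorem exists_odd (v : HeightOneSpectrum (𝓞 k)) {x : v.adicCompletion k} (hx : x ≠ 0) :
    ∃ a : k, a ≠ 0 ∧ Valued.v (1 - x / algebraMap k (v.adicCompletion k) a) = exp (-1 : ℤ) := by
  obtain ⟨π, hπ⟩ := v.valuation_exists_uniformizer k
  set P := algebraMap k (v.adicCompletion k) π with hP
  have hPv : Valued.v P = exp (-1 : ℤ) := by rw [hP, val_alg, hπ]
  have hx0 : Valued.v x ≠ 0 := by rwa [Ne, Valuation.zero_iff]
  obtain ⟨m, hm⟩ : ∃ m : ℕ, exp (-(m : ℤ)) < Valued.v x * exp (-1 : ℤ) := by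
    obtain ⟨n, hn⟩ : ∃ n : ℤ, Valued.v x = exp n := ⟨_, (exp_log hx0).symm⟩
    refine ⟨(1 - n).toNat + 1, ?_⟩
    rw [hn, ← exp_add, exp_lt_exp]
    push_cast
    have := Int.self_le_toNat (1 - n)
    omega
  obtain ⟨a, ha⟩ := exists_approx v (x * (1 + P)) m
  set Y := algebraMap k (v.adicCompletion k) a with hY
  have h1 : Valued.v (Y - x) = Valued.v x * exp (-1 : ℤ) := by
    have h2 : Y - x = x * P - (x * (1 + P) - Y) := by ring
    rw [h2, Valuation.map_sub_eq_of_lt_left, map_mul, hPv]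
    rw [map_mul, hPv]
    exact lt_of_le_of_lt ha hm
  have hlt : exp (-1 : ℤ) < (1 : WithZero (Multiplicative ℤ)) := by
    rw [← exp_zero]
    exact exp_lt_exp.mpr (by norm_num)
  have h3 : Valued.v Y = Valued.v x := by
    have h4 : Y = x - (x - Y) := by ring
    rw [h4, Valuation.map_sub_eq_of_lt_left]
    rw [Valuation.map_sub_swap, h1]
    calc Valued.v x * exp (-1 : ℤ) < Valued.v x * 1 :=
          mul_lt_mul_of_pos_left hlt (zero_lt_iff.mpr hx0)
      _ = Valued.v x := mul_one _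
  have hY0 : Y ≠ 0 := by
    intro h
    rw [h, map_zero] at h3
    exact hx0 h3.symm
  refine ⟨a, ?_, ?_⟩
  · rintro rfl
    exact hY0 (by rw [hY, map_zero])
  · have h5 : 1 - x / Y = (Y - x) / Y := by field_simp
    rw [h5, map_div₀, h1, h3, mul_div_assoc, mul_comm, div_mul_cancel₀ _ hx0]

/-- parity: `x` has odd valuation at `v` if `x z^2` has, and then `x x'` is no square, if `x'` is a
unit at `v` -/
theorem not_isSquare (v : HeightOneSpectrum (𝓞 k)) {x x' : 𝓞 k} (hx' : x' ∉ v.asIdeal)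
    {z : v.adicCompletion k}
    (hz : Valued.v (algebraMap k (v.adicCompletion k) x * z ^ 2) = exp (-1 : ℤ)) :
    ¬ IsSquare ((x : k) * (x' : k)) := by
  rintro ⟨c, hc⟩
  have h1 : v.valuation k ((x : k) * (x' : k)) = v.valuation k c * v.valuation k c := by
    rw [hc, map_mul]
  have h2 : v.valuation k (x' : k) = 1 := (HeightOneSpectrum.valuation_eq_one_iff_notMem v).mpr hx'
  rw [map_mul, h2, mul_one] at h1
  rw [map_mul, val_alg, h1, map_pow] at hz
  have h3 : (v.valuation k c * Valued.v z) ^ 2 = exp (-1 : ℤ) := by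
    rw [← hz, mul_pow, pow_two (v.valuation k c)]
  have h4 : v.valuation k c * Valued.v z ≠ 0 := by
    intro h
    rw [h, zero_pow two_ne_zero] at h3
    exact exp_ne_zero h3.symm
  obtain ⟨n, hn⟩ : ∃ n : ℤ, v.valuation k c * Valued.v z = exp n := ⟨_, (exp_log h4).symm⟩
  rw [hn, ← exp_nsmul] at h3
  have h5 := exp_injective h3
  simp at h5
  omega

end num

end Pool.Agent.Lib.MP_2f3286_ag.PD
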