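import Pool.Agent.Lib.MP_2f3286_ag.PD.Loc
import Pool.Agent.Lib.MP_2f3286_ag.GU.Agree
import Pool.Agent.Lib.MP_2f3286_ag.NormStage
import Pool.Agent.Lib.MP_2f3286_bir.Uniq

/-!
# The local places of a section that comes from a place are the extensions of this place
-/

open IsDedekindDomain NumberField
open Pool.Agent.Lib.MP_2f3286_ag
open Pool.Agent.Lib.MP_2f3286_bir

namespace Pool.Agent.Lib.MP_2f3286_ag.PD

theorem inv_sub_mem {k kb K Ω E Eb : Type*} [Field k] [Field kb] [Algebra k kb] [Field K]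
    [Field Ω] [Algebra K Ω] [Algebra kb Ω] {s : Gal(kb/k) →* Gal(Ω/K)} [Field E] [Field Eb]
    [Algebra E Eb] {ι : kb →+* Eb} {A : ValuationSubring Ω} {φ : A →+* Eb}
    (h : IsPlaceOf s E ι A φ) {x : Ω} {a : kb}
    (hx : ∀ hA : x ∈ A, φ ⟨x, hA⟩ ≠ ι a) : (x - algebraMap kb Ω a)⁻¹ ∈ A := by
  obtain ⟨h1, h2⟩ := h.1 a
  by_cases hA : x ∈ A
  · refine h.2.1 ⟨x - algebraMap kb Ω a, sub_mem hA h1⟩ ?_
    have h3 : (⟨x - algebraMap kb Ω a, sub_mem hA h1⟩ : A) = ⟨x, hA⟩ - ⟨_, h1⟩ := rfl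
    rw [h3, map_sub, h2]
    exact sub_ne_zero.mpr (hx hA)
  · refine (A.mem_or_inv_mem _).resolve_left fun h3 => hA ?_
    have h4 := add_mem h3 h1
    rwa [sub_add_cancel] at h4

universe u in
theorem local_unique {k : Type u} [Field k] [NumberField k]
    {K : Type*} [Field K] [Algebra k K] (htr : Algebra.trdeg k K = 1)
    {Ω : Type*} [Field Ω] [Algebra K Ω] [IsAlgClosure K Ω]
    [Algebra (AlgebraicClosure k) Ω] [Algebra k Ω]
    [IsScalarTower k K Ω] [IsScalarTower k (AlgebraicClosure k) Ω]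
    (t : K) (ht : ∀ c : k, t ≠ algebraMap k K c)
    (s : Gal(AlgebraicClosure k/k) →* Gal(Ω/K)) (hs : Continuous s)
    (hsec : ∀ σ a, s σ (algebraMap (AlgebraicClosure k) Ω a) =
      algebraMap (AlgebraicClosure k) Ω (σ a))
    {A₀ : ValuationSubring Ω} {ψ₀ : A₀ →+* AlgebraicClosure k}
    (h₀ : IsPlaceOf s k (RingHom.id _) A₀ ψ₀)
    (v : HeightOneSpectrum (𝓞 k))
    (ι : AlgebraicClosure k →ₐ[k] AlgebraicClosure (v.adicCompletion k))
    (A : ValuationSubring Ω) (φ : A →+* AlgebraicClosure (v.adicCompletion k))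
    (h : IsPlaceOf s (v.adicCompletion k) (ι : _ →+* AlgebraicClosure (v.adicCompletion k)) A φ) :
    A = A₀ ∧ ∀ (a : A) (b : A₀), (a : Ω) = b → φ a = ι (ψ₀ b) := by
  classical
  have hcl : IsAlgClosed Ω := IsAlgClosure.isAlgClosed K
  have halg : Algebra.IsAlgebraic K Ω := IsAlgClosure.isAlgebraic
  -- choose `a`
  obtain ⟨a, ha1, ha2⟩ : ∃ a : k, (∀ hA : algebraMap K Ω t ∈ A₀,
      ψ₀ ⟨algebraMap K Ω t, hA⟩ ≠ RingHom.id _ (algebraMap k (AlgebraicClosure k) a)) ∧
      (∀ hA : algebraMap K Ω t ∈ A, φ ⟨algebraMap K Ω t, hA⟩ ≠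
        (ι : _ →+* AlgebraicClosure (v.adicCompletion k)) (algebraMap k (AlgebraicClosure k) a)) := by
    have h1 : ({a : k | ∃ hA : algebraMap K Ω t ∈ A₀,
        ψ₀ ⟨algebraMap K Ω t, hA⟩ = RingHom.id _ (algebraMap k (AlgebraicClosure k) a)} ∪
        {a : k | ∃ hA : algebraMap K Ω t ∈ A, φ ⟨algebraMap K Ω t, hA⟩ =
        (ι : _ →+* AlgebraicClosure (v.adicCompletion k))
          (algebraMap k (AlgebraicClosure k) a)}).Finite := by
      refine Set.Finite.union ?_ ?_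
      · refine Set.Subsingleton.finite ?_
        rintro c ⟨hA, hc⟩ c' ⟨hA', hc'⟩
        rw [hc] at hc'
        exact (algebraMap k (AlgebraicClosure k)).injective ((RingHom.id _).injective hc')
      · refine Set.Subsingleton.finite ?_
        rintro c ⟨hA, hc⟩ c' ⟨hA', hc'⟩
        rw [hc] at hc'
        exact (algebraMap k (AlgebraicClosure k)).injective
          ((ι : _ →+* AlgebraicClosure (v.adicCompletion k)).injective hc')
    obtain ⟨a, ha⟩ := h1.exists_notMem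
    simp only [Set.mem_union, Set.mem_ofPred_eq, not_or, not_exists] at ha
    exact ⟨a, ha.1, ha.2⟩
  let t₁ : K := (t - algebraMap k K a)⁻¹
  have haΩ : algebraMap (AlgebraicClosure k) Ω (algebraMap k _ a) =
      algebraMap K Ω (algebraMap k K a) := by
    rw [← IsScalarTower.algebraMap_apply, ← IsScalarTower.algebraMap_apply]
  have ht₁Ω : algebraMap K Ω t₁ = (algebraMap K Ω t -
      algebraMap (AlgebraicClosure k) Ω (algebraMap k _ a))⁻¹ := by
    rw [map_inv₀, map_sub, haΩ]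
  have htA₀ : algebraMap K Ω t₁ ∈ A₀ := ht₁Ω ▸ inv_sub_mem h₀ ha1
  have htA : algebraMap K Ω t₁ ∈ A := ht₁Ω ▸ inv_sub_mem h ha2
  have ht₁ : ∀ c : k, t₁ ≠ algebraMap k K c := by
    intro c hc
    apply ht (c⁻¹ + a)
    rw [map_add, map_inv₀, ← hc, inv_inv, sub_add_cancel]
  let R : Subalgebra k K := Algebra.adjoin k {t₁}
  have htR : t₁ ∈ R := Algebra.subset_adjoin rfl
  -- constants
  have hk : ∀ {E Eb : Type _} [Field E] [Field Eb] [Algebra E Eb]
      {ι : AlgebraicClosure k →+* Eb} {A : ValuationSubring Ω} {φ : A →+* Eb},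
      IsPlaceOf s E ι A φ → algebraMap K Ω t₁ ∈ A → ∀ r : K, r ∈ R → algebraMap K Ω r ∈ A := by
    intro E Eb _ _ _ ι A φ h htA r hr
    induction hr using Algebra.adjoin_induction with
    | mem r hr => rw [Set.mem_singleton_iff.mp hr]; exact htA
    | algebraMap c =>
      obtain ⟨h1, -⟩ := h.1 (algebraMap k _ c)
      have h2 : algebraMap (AlgebraicClosure k) Ω (algebraMap k _ c) =
          algebraMap K Ω (algebraMap k K c) := by
        rw [← IsScalarTower.algebraMap_apply, ← IsScalarTower.algebraMap_apply]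
      rw [← h2]; exact h1
    | add a b _ _ ha hb => rw [map_add]; exact add_mem ha hb
    | mul a b _ _ ha hb => rw [map_mul]; exact mul_mem ha hb
  have hint : ∀ A : ValuationSubring Ω, (∀ r : K, r ∈ R → algebraMap K Ω r ∈ A) →
      ∀ b : Ω, IsIntegral R b → b ∈ A := by
    intro A hA b hb
    let g : R →+* A := ((algebraMap K Ω).comp (algebraMap R K)).codRestrict A.toSubring
      (fun r => hA r r.2)
    have h1 : IsIntegral A ((RingHom.id Ω) b) := by
      refine IsIntegral.map_of_comp_eq g (RingHom.id Ω) ?_ hb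
      ext r
      rfl
    obtain ⟨y, hy⟩ := (IsIntegrallyClosed.isIntegral_iff (R := A) (K := Ω)).mp h1
    have h2 : (y : Ω) = b := hy
    rw [← h2]
    exact y.2
  have hBA := hint A (hk h htA)
  have hBA₀ := hint A₀ (hk h₀ htA₀)
  let φ' : integralClosure R Ω →+* AlgebraicClosure (v.adicCompletion k) :=
    φ.comp ((algebraMap (integralClosure R Ω) Ω).codRestrict A.toSubring (fun b => hBA b b.2))
  have hφ'1 : ∀ b : integralClosure R Ω, φ' b = φ ⟨b, hBA b b.2⟩ := fun b => rfl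
  have hφ' : Respects s (v.adicCompletion k)
      (ι : _ →+* AlgebraicClosure (v.adicCompletion k)) φ' := by
    refine ⟨fun a b hab => ?_, fun σ τ hστ b b' hb => ?_⟩
    · obtain ⟨h, h'⟩ := h.1 a
      rw [hφ'1, ← h']
      congr 1
      exact Subtype.ext hab
    · obtain ⟨h, h'⟩ := h.2.2 σ τ hστ ⟨b, hBA b b.2⟩
      rw [hφ'1, hφ'1, ← h']
      congr 1
      exact Subtype.ext hb
  let θ : integralClosure R Ω →+* AlgebraicClosure k :=
    ψ₀.comp ((algebraMap (integralClosure R Ω) Ω).codRestrict A₀.toSubring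
      (fun b => hBA₀ b b.2))
  have hθ1 : ∀ b : integralClosure R Ω, θ b = ψ₀ ⟨b, hBA₀ b b.2⟩ := fun b => rfl
  have hθ : Respects s k (RingHom.id _) θ := by
    refine ⟨fun a b hab => ?_, fun σ τ hστ b b' hb => ?_⟩
    · obtain ⟨h, h'⟩ := h₀.1 a
      rw [hθ1, ← h']
      congr 1
      exact Subtype.ext hab
    · obtain ⟨h, h'⟩ := h₀.2.2 σ τ hστ ⟨b, hBA₀ b b.2⟩
      rw [hθ1, hθ1, ← h']
      congr 1
      exact Subtype.ext hb
  -- divisible units
  have hle : divUnitRing R Ω ≤ A₀.toSubring := by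
    rw [divUnitRing, Subring.closure_le]
    intro b hb
    exact hBA₀ b hb.1
  let ψ' : divUnitRing R Ω →+* AlgebraicClosure k := ψ₀.comp (Subring.inclusion hle)
  have hψ'1 : ∀ c : divUnitRing R Ω, ψ' c = ψ₀ ⟨c, hle c.2⟩ := fun c => rfl
  have hψ' : Respects s k (RingHom.id _) ψ' := by
    refine ⟨fun a b hab => ?_, fun σ τ hστ b b' hb => ?_⟩
    · obtain ⟨h, h'⟩ := h₀.1 a
      rw [hψ'1, ← h']
      congr 1
      exact Subtype.ext hab
    · obtain ⟨h, h'⟩ := h₀.2.2 σ τ hστ ⟨b, hle b.2⟩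
      rw [hψ'1, hψ'1, ← h']
      congr 1
      exact Subtype.ext hb
  have hmem : ∀ b : Ω, IsIntegral R b → b ∈ divUnitRing R Ω := by
    intro b hb
    have h1 : b ∈ unitRing R Ω := mem_unitRing hb
    have h2 : unitRing R Ω ≤ divUnitRing R Ω := by
      rw [unitRing, Subring.closure_le]
      intro b hb
      exact Subring.subset_closure ⟨hb.1, hb.2, fun n hn => IsAlgClosed.exists_pow_nat_eq b hn⟩
    exact h2 h1
  have htt : Transcendental k ((⟨t₁, htR⟩ : R) : K) := by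
    rintro ⟨q, hq, hqt⟩
    refine transcendental_of_section R ⟨t₁, htR⟩
      (fun c h => ht₁ c (congrArg (Subtype.val : R → K) h)) s hsec hq ?_
    apply Subtype.ext
    rw [ZeroMemClass.coe_zero, ← hqt]
    exact (Polynomial.aeval_algHom_apply R.val _ q).symm
  obtain ⟨A₁, ψ₁, h1, h2⟩ := place_layer htr s R ⟨t₁, htR⟩ htt (V := Unit) (fun _ => v)
    (fun _ => ι) (fun _ => A) (fun _ => φ) (fun _ => h) θ hθ (by
      intro _ b
      refine ⟨hBA b b.2, ?_⟩
      exact GU.local_agree R s hs hsec ψ' hψ' v ι φ' hφ' ⟨b, hmem b b.2⟩ b rfl)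
  obtain ⟨h3, h4⟩ := place_unique s hs h₀ h1
  obtain ⟨h5, h6⟩ := h2 ()
  refine ⟨h5.trans h3, fun a b hab => ?_⟩
  have h7 : (a : Ω) ∈ A₁ := h5 ▸ a.2
  rw [h6 a ⟨a, h7⟩ rfl, h4 ⟨a, h7⟩ b hab]

end Pool.Agent.Lib.MP_2f3286_ag.PD
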