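import Mathlib
import Pool.Agent.Lib.MP_2f3286_ag.KSplit

/-!
# The density of the places at which several numbers are squares
-/

open NumberField IsDedekindDomain Filter Topology Ideal Polynomial
open scoped Pointwise

namespace Pool.Agent.Lib.MP_2f3286_ag.PD

/-- an automorphism preserving a prime modulo which `x` is a nonzero square fixes `√x` -/
theorem stab_fix {F E : Type*} [Field F] [NumberField F] [Field E] [NumberField E]
    [Algebra F E] (x : 𝓞 F) {α : E}
    (hα : α ^ 2 = algebraMap F E x)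
    (w : HeightOneSpectrum (𝓞 F)) (P : HeightOneSpectrum (𝓞 E)) [P.asIdeal.LiesOver w.asIdeal]
    (hxw : x ∉ w.asIdeal) (hNw : (2 : 𝓞 F) ∉ w.asIdeal) (r : 𝓞 F) (hr : r ^ 2 - x ∈ w.asIdeal)
    (g : Gal(E/F)) (hg : g • P.asIdeal = P.asIdeal) : g α = α := by
  have hPprime := P.isPrime
  have hsm : ∀ z : 𝓞 E, ((g • z : 𝓞 E) : E) = g (z : E) := fun z => rfl
  have halg : ∀ y : 𝓞 F, ((algebraMap (𝓞 F) (𝓞 E) y : 𝓞 E) : E) = algebraMap F E y := fun y => rfl
  have hsa : ∀ y : 𝓞 F, g • (algebraMap (𝓞 F) (𝓞 E) y) = algebraMap (𝓞 F) (𝓞 E) y := by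
    intro y
    apply RingOfIntegers.ext
    rw [hsm, halg, AlgEquiv.commutes]
  have hmem : ∀ y : 𝓞 F, algebraMap (𝓞 F) (𝓞 E) y ∈ P.asIdeal ↔ y ∈ w.asIdeal := by
    intro y
    rw [Ideal.mem_of_liesOver P.asIdeal w.asIdeal]
  obtain ⟨α', hα'⟩ : ∃ α' : 𝓞 E, (α' : E) = α := by
    refine ⟨⟨α, ?_⟩, rfl⟩
    have h1 : IsIntegral ℤ (α ^ 2) := by
      rw [hα]
      have h2 : algebraMap F E (x : F) = algebraMap (𝓞 E) E (algebraMap (𝓞 F) (𝓞 E) x) := rfl
      rw [h2]
      exact RingOfIntegers.isIntegral_coe _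
    exact h1.of_pow two_pos
  have hpow : α' ^ 2 = algebraMap (𝓞 F) (𝓞 E) x := by
    apply RingOfIntegers.ext
    rw [halg, ← hα, ← hα']
    rfl
  -- `g α' = ± α'`
  have h1 : (g • α') ^ 2 = α' ^ 2 := by
    rw [← smul_pow', hpow, hsa]
  have h2 : g • α' = α' ∨ g • α' = - α' := sq_eq_sq_iff_eq_or_eq_neg.mp h1
  rcases h2 with h2 | h2
  · rw [← hα', ← hsm, h2]
  · exfalso
    -- `α'` is congruent to `± r`
    have hα0 : α' ∉ P.asIdeal := by
      intro h
      have h3 : α' ^ 2 ∈ P.asIdeal := Ideal.pow_mem_of_mem _ h 2 two_pos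
      rw [hpow, hmem] at h3
      exact hxw h3
    have h3 : α' ^ 2 - (algebraMap (𝓞 F) (𝓞 E) r) ^ 2 ∈ P.asIdeal := by
      rw [hpow, ← map_pow, ← map_sub, hmem, ← neg_sub]
      exact neg_mem hr
    obtain ⟨e, he⟩ : ∃ e : 𝓞 F, α' - algebraMap (𝓞 F) (𝓞 E) e ∈ P.asIdeal := by
      rw [sq_sub_sq] at h3
      rcases hPprime.mem_or_mem h3 with h | h
      · refine ⟨-r, ?_⟩
        rwa [map_neg, sub_neg_eq_add]
      · exact ⟨r, h⟩
    have h4 : g • (α' - algebraMap (𝓞 F) (𝓞 E) e) ∈ P.asIdeal := by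
      have h5 := Ideal.smul_mem_pointwise_smul g _ _ he
      rwa [hg] at h5
    rw [smul_sub, hsa, h2] at h4
    have h5 : (algebraMap (𝓞 F) (𝓞 E) 2) * α' ∈ P.asIdeal := by
      have h6 := sub_mem he h4
      have h7 : α' - algebraMap (𝓞 F) (𝓞 E) e - (-α' - algebraMap (𝓞 F) (𝓞 E) e) =
          (algebraMap (𝓞 F) (𝓞 E) 2) * α' := by
        rw [map_ofNat]; ring
      rwa [h7] at h6
    rcases hPprime.mem_or_mem h5 with h | h
    · rw [hmem] at h; exact hNw h
    · exact hα0 h

/-- The set of places at which `m` numbers, no two of which are equal up to squares, are all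
squares has density at most `1/m`. -/
theorem density_many (F : Type*) [Field F] [NumberField F] {J : Type*} [Fintype J] (x : J → 𝓞 F)
    (hx : ∀ i, x i ≠ 0) (hpair : ∀ i j, i ≠ j → ¬ IsSquare ((x i : F) * (x j : F))) :
    ∃ C : ℝ, ∀ᶠ s : ℝ in 𝓝[>] 1,
      (Fintype.card J : ℝ) * ∑' w : {w : HeightOneSpectrum (𝓞 F) | (2 : 𝓞 F) ∉ w.asIdeal ∧ ∀ i, x i ∉ w.asIdeal ∧
        ∃ r : 𝓞 F, r ^ 2 - x i ∈ w.asIdeal}, xw F s w ≤ Real.log (1 / (s - 1)) + C := by
  classical
  let f : F[X] := ∏ i, (X ^ 2 - C (x i : F))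
  have hf0 : ∀ i, (X ^ 2 - C (x i : F)) ≠ 0 := fun i => X_pow_sub_C_ne_zero two_pos _
  have hf : f ≠ 0 := Finset.prod_ne_zero_iff.mpr fun i _ => hf0 i
  let E := f.SplittingField
  have : NumberField E := NumberField.of_module_finite F E
  have hnorm : Normal F E := Normal.of_isSplittingField f
  have hgal : IsGalois F E := ⟨⟩
  have hsplit := SplittingField.splits f
  have hx0 : ∀ i, (x i : F) ≠ 0 := fun i h => hx i (RingOfIntegers.ext h)
  have hα : ∀ i, ∃ α : E, α ^ 2 = algebraMap F E (x i) := by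
    intro i
    have h1 : ((X ^ 2 - C (x i : F)).map (algebraMap F E)).Splits := by
      refine hsplit.of_dvd ?_ (Polynomial.map_dvd _ (Finset.dvd_prod_of_mem _ (Finset.mem_univ i)))
      exact Polynomial.map_ne_zero hf
    obtain ⟨α, hα⟩ := h1.exists_eval_eq_zero (by
      rw [degree_map, degree_X_pow_sub_C two_pos]
      norm_num)
    refine ⟨α, ?_⟩
    rw [eval_map, ← aeval_def] at hα
    simpa [sub_eq_zero] using hα
  choose α hα using hα
  have hα0 : ∀ i, α i ≠ 0 := by
    intro i h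
    have h1 := hα i
    rw [h, zero_pow two_ne_zero] at h1
    exact hx0 i ((map_eq_zero _).mp h1.symm)
  have hgen : ∀ g : Gal(E/F), (∀ i, g (α i) = α i) → g = 1 := by
    intro g hg
    have hadj := IsSplittingField.adjoin_rootSet E f
    have h1 : (g : E →ₐ[F] E) = (AlgEquiv.refl : Gal(E/F)) := by
      refine AlgHom.ext_of_adjoin_eq_top hadj ?_
      intro β hβ
      have h2 := (mem_rootSet.mp hβ).2
      have h3 : ∏ i, (β ^ 2 - algebraMap F E (x i)) = 0 := by
        simpa [f, map_prod] using h2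
      obtain ⟨i, -, hi⟩ := Finset.prod_eq_zero_iff.mp h3
      have h4 : β ^ 2 = α i ^ 2 := by rw [hα]; exact sub_eq_zero.mp hi
      rcases sq_eq_sq_iff_eq_or_eq_neg.mp h4 with h5 | h5
      · rw [h5]; exact hg i
      · rw [h5]
        change g (-α i) = -α i
        rw [map_neg, hg]
    ext z
    exact DFunLike.congr_fun h1 z
  -- characters
  have hsign : ∀ (i) (g : Gal(E/F)), g (α i) = α i ∨ g (α i) = -α i := by
    intro i g
    apply sq_eq_sq_iff_eq_or_eq_neg.mp
    rw [← map_pow, hα, AlgEquiv.commutes]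
  have hfixq : ∀ (i) (g h : Gal(E/F)), g (h (α i) / α i) = h (α i) / α i := by
    intro i g h
    rcases hsign i h with h1 | h1 <;> rw [h1]
    · rw [div_self (hα0 i), map_one]
    · rw [neg_div, div_self (hα0 i), map_neg, map_one]
  let χ : J → (Gal(E/F) →* E) := fun i =>
    { toFun := fun g => g (α i) / α i
      map_one' := by
        change α i / α i = 1
        exact div_self (hα0 i)
      map_mul' := by
        intro g h
        have h1 : g (h (α i)) = g (α i) * (h (α i) / α i) := by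
          have h2 : h (α i) = (h (α i) / α i) * α i := (div_mul_cancel₀ _ (hα0 i)).symm
          conv_lhs => rw [h2]
          rw [map_mul, hfixq, mul_comm]
        change g (h (α i)) / α i = g (α i) / α i * (h (α i) / α i)
        rw [h1]
        ring }
  have hχ : Function.Injective χ := by
    intro i j hij
    by_contra hne
    apply hpair i j hne
    have h1 : ∀ g : Gal(E/F), g (α i * α j) = α i * α j := by
      intro g
      have h2 : g (α i) / α i = g (α j) / α j := DFunLike.congr_fun hij g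
      rw [map_mul]
      rcases hsign i g with h3 | h3 <;> rcases hsign j g with h4 | h4
      · rw [h3, h4]
      · exfalso
        rw [h3, h4, div_self (hα0 i), neg_div, div_self (hα0 j)] at h2
        have : (2 : E) = 0 := by linear_combination h2
        exact two_ne_zero this
      · exfalso
        rw [h3, h4, div_self (hα0 j), neg_div, div_self (hα0 i)] at h2
        have : (2 : E) = 0 := by linear_combination -h2
        exact two_ne_zero this
      · rw [h3, h4]; ring
    have hbot : α i * α j ∈ (⊥ : IntermediateField F E) := by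
      rw [IsGalois.mem_bot_iff_fixed]; exact h1
    obtain ⟨z, hz⟩ := IntermediateField.mem_bot.mp hbot
    refine ⟨z, ?_⟩
    apply (algebraMap F E).injective
    rw [map_mul, map_mul, ← hα, ← hα, hz]
    ring
  have hcard : Fintype.card J ≤ Nat.card Gal(E/F) := by
    have h1 : LinearIndependent E (fun i => (χ i : Gal(E/F) → E)) :=
      (linearIndependent_monoidHom Gal(E/F) E).comp χ hχ
    have h2 := h1.fintype_card_le_finrank
    rw [Module.finrank_fintype_fun_eq_card] at h2
    rwa [Nat.card_eq_fintype_card]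
  obtain ⟨C, hC⟩ := primeSum_asymp E
  refine ⟨C, ?_⟩
  filter_upwards [hC, self_mem_nhdsWithin] with s hs1 hs
  have hmain := sum_le_of_split (E := E) {w : HeightOneSpectrum (𝓞 F) | (2 : 𝓞 F) ∉ w.asIdeal ∧
      ∀ i, x i ∉ w.asIdeal ∧ ∃ r : 𝓞 F, r ^ 2 - x i ∈ w.asIdeal} (by
    rintro w ⟨h2w, hw⟩
    obtain ⟨P, hP⟩ := exists_prime_over (E := E) w
    refine ⟨P, hP, fun g hg => hgen g fun i => ?_⟩
    obtain ⟨hxw, r, hr⟩ := hw i
    exact stab_fix (x i) (hα i) w P hxw h2w r hr g hg) hs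
  have h0 : 0 ≤ ∑' w : {w : HeightOneSpectrum (𝓞 F) | (2 : 𝓞 F) ∉ w.asIdeal ∧ ∀ i, x i ∉ w.asIdeal ∧
        ∃ r : 𝓞 F, r ^ 2 - x i ∈ w.asIdeal}, xw F s w := tsum_nonneg fun w => xw_nonneg F s _
  have h1 := (abs_le.mp hs1).2
  have h2 : (Fintype.card J : ℝ) ≤ (Nat.card Gal(E/F) : ℝ) := by exact_mod_cast hcard
  have h3 := mul_le_mul_of_nonneg_right h2 h0
  linarith

end Pool.Agent.Lib.MP_2f3286_ag.PD
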