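import Mathlib
import Pool.Agent.Lib.MP_2f3286_ag.Split

/-!
# Sets of places of Dirichlet density zero
-/

open NumberField IsDedekindDomain Filter Topology Ideal NumberField.Set

namespace Pool.Agent.Lib.MP_2f3286_ag.PD

variable {F : Type*} [Field F] [NumberField F]

theorem pizs_eq (S : Set (HeightOneSpectrum (𝓞 F))) (s : ℝ) :
    primeIdealZetaSum S s = ∑' w : S, xw F s w := rfl

theorem pizs_univ (s : ℝ) :
    primeIdealZetaSum (Set.univ : Set (HeightOneSpectrum (𝓞 F))) s = ∑' w, xw F s w := by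
  rw [pizs_eq]
  exact tsum_univ (xw F s)

theorem pizs_mono {S T : Set (HeightOneSpectrum (𝓞 F))} (h : S ⊆ T) {s : ℝ} (hs : 1 < s) :
    primeIdealZetaSum S s ≤ primeIdealZetaSum T s := by
  rw [pizs_eq, pizs_eq]
  have h1 := summable_xw F hs
  refine Summable.tsum_le_tsum_of_inj (Set.inclusion h) (Set.inclusion_injective h)
    (fun c _ => xw_nonneg F s c) (fun w => le_rfl) (h1.comp_injective Subtype.val_injective)
    (h1.comp_injective Subtype.val_injective)

theorem pizs_union (S T : Set (HeightOneSpectrum (𝓞 F))) {s : ℝ} (hs : 1 < s) :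
    primeIdealZetaSum (S ∪ T) s ≤ primeIdealZetaSum S s + primeIdealZetaSum T s := by
  have h1 := summable_xw F hs
  rw [pizs_eq, pizs_eq, pizs_eq, tsum_subtype S (xw F s), tsum_subtype T (xw F s),
    tsum_subtype (S ∪ T) (xw F s), ← Summable.tsum_add (h1.indicator _) (h1.indicator _)]
  refine Summable.tsum_le_tsum (fun w => ?_) (h1.indicator _) ((h1.indicator _).add (h1.indicator _))
  have h0 := xw_nonneg F s w
  by_cases hS : w ∈ S <;> by_cases hT : w ∈ T <;>
    simp [Set.indicator, hS, hT, h0]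

theorem pizs_finite {S : Set (HeightOneSpectrum (𝓞 F))} (hS : S.Finite) {s : ℝ} (hs : 1 < s) :
    primeIdealZetaSum S s ≤ S.ncard :=
  primeIdealZetaSum_le_card_of_finite hS (by linarith)

/-- the sum over all primes tends to infinity -/
theorem tendsto_univ : Tendsto (fun s : ℝ =>
    primeIdealZetaSum (Set.univ : Set (HeightOneSpectrum (𝓞 F))) s) (𝓝[>] 1) atTop := by
  obtain ⟨C, hC⟩ := primeSum_asymp F
  have h1 : Tendsto (fun s : ℝ => Real.log (1 / (s - 1)) + (-C)) (𝓝[>] 1) atTop :=
    tendsto_atTop_add_const_right _ _ tendsto_log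
  refine tendsto_atTop_mono' _ ?_ h1
  filter_upwards [hC] with s hs
  rw [pizs_univ]
  have := (abs_le.mp hs).1
  linarith

theorem density_zero_iff {S : Set (HeightOneSpectrum (𝓞 F))} :
    HasDirichletDensity S 0 ↔ ∀ m : ℕ, 0 < m → ∀ᶠ s : ℝ in 𝓝[>] 1,
      (m : ℝ) * primeIdealZetaSum S s ≤ primeIdealZetaSum (Set.univ : Set (HeightOneSpectrum (𝓞 F))) s := by
  constructor
  · intro h m hm
    have h1 : (0 : ℝ) < 1 / m := by positivity
    have h2 := (h.eventually (gt_mem_nhds h1))
    filter_upwards [h2, (tendsto_univ (F := F)).eventually_gt_atTop 0] with s hs1 hs2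
    rw [div_lt_iff₀ hs2] at hs1
    have hm' : (0 : ℝ) < m := by exact_mod_cast hm
    have h3 := mul_lt_mul_of_pos_left hs1 hm'
    rw [← mul_assoc, mul_one_div_cancel hm'.ne', one_mul] at h3
    exact h3.le
  · intro h
    unfold HasDirichletDensity
    rw [tendsto_order]
    constructor
    · intro a ha
      refine Eventually.of_forall fun s => lt_of_lt_of_le ha ?_
      exact div_nonneg (primeIdealZetaSum_nonneg S s) (primeIdealZetaSum_nonneg _ s)
    · intro a ha
      obtain ⟨m, hm⟩ := exists_nat_gt (1 / a)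
      have hm0 : (0 : ℝ) < m := lt_trans (by positivity) hm
      have hm1 : 0 < m := by exact_mod_cast hm0
      filter_upwards [h m hm1, (tendsto_univ (F := F)).eventually_gt_atTop 0] with s hs1 hs2
      rw [div_lt_iff₀ hs2]
      rw [div_lt_iff₀ ha] at hm
      have h3 : primeIdealZetaSum S s ≤ primeIdealZetaSum
          (Set.univ : Set (HeightOneSpectrum (𝓞 F))) s / m := by
        rw [le_div_iff₀ hm0, mul_comm]; exact hs1
      refine lt_of_le_of_lt h3 ?_
      rw [div_lt_iff₀ hm0, mul_comm a, mul_assoc]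
      nlinarith

theorem density_zero_mono {S T : Set (HeightOneSpectrum (𝓞 F))} (h : S ⊆ T)
    (hT : HasDirichletDensity T 0) : HasDirichletDensity S 0 := by
  rw [density_zero_iff] at hT ⊢
  intro m hm
  filter_upwards [hT m hm, self_mem_nhdsWithin] with s hs1 hs2
  refine le_trans ?_ hs1
  gcongr
  exact pizs_mono h hs2

theorem density_zero_union {S T : Set (HeightOneSpectrum (𝓞 F))} (hS : HasDirichletDensity S 0)
    (hT : HasDirichletDensity T 0) : HasDirichletDensity (S ∪ T) 0 := by
  rw [density_zero_iff] at hS hT ⊢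
  intro m hm
  filter_upwards [hS (2 * m) (by omega), hT (2 * m) (by omega), self_mem_nhdsWithin] with s hs1 hs2 hs3
  have h1 := pizs_union S T (s := s) hs3
  have h2 : (m : ℝ) * primeIdealZetaSum (S ∪ T) s ≤
      m * (primeIdealZetaSum S s + primeIdealZetaSum T s) := by gcongr
  push_cast at hs1 hs2
  linarith

theorem density_zero_finite {S : Set (HeightOneSpectrum (𝓞 F))} (hS : S.Finite) :
    HasDirichletDensity S 0 := by
  rw [density_zero_iff]
  intro m hm
  filter_upwards [(tendsto_univ (F := F)).eventually_ge_atTop ((m : ℝ) * S.ncard), self_mem_nhdsWithin]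
    with s hs1 hs2
  refine le_trans ?_ hs1
  gcongr
  exact pizs_finite hS hs2

theorem density_zero_biUnion {I : Type*} {S : I → Set (HeightOneSpectrum (𝓞 F))} (A : Finset I)
    (h : ∀ i ∈ A, HasDirichletDensity (S i) 0) : HasDirichletDensity (⋃ i ∈ A, S i) 0 := by
  classical
  induction A using Finset.induction_on with
  | empty =>
    simp only [Finset.notMem_empty, Set.iUnion_of_empty, Set.iUnion_empty]
    exact hasDirichletDensity_empty
  | insert a A ha ih =>
    rw [Finset.set_biUnion_insert]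
    exact density_zero_union (h a (Finset.mem_insert_self _ _))
      (ih fun i hi => h i (Finset.mem_insert_of_mem hi))

theorem not_density_zero_univ : ¬ HasDirichletDensity (Set.univ : Set (HeightOneSpectrum (𝓞 F))) 0 := by
  rw [density_zero_iff]
  push Not
  refine ⟨2, two_pos, ?_⟩
  intro h
  obtain ⟨s, hs1, hs2⟩ := (h.and ((tendsto_univ (F := F)).eventually_gt_atTop 0)).exists
  push_cast at hs1
  linarith

/-- A set `S` which is, up to sets of density zero, of upper density at most `1/m` for all `m`. -/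
theorem density_zero_of_split {S : Set (HeightOneSpectrum (𝓞 F))}
    (h : ∀ m : ℕ, ∃ (T D : Set (HeightOneSpectrum (𝓞 F))) (C : ℝ), HasDirichletDensity D 0 ∧
      S ⊆ T ∪ D ∧ ∀ᶠ s : ℝ in 𝓝[>] 1, (m : ℝ) * ∑' w : T, xw F s w ≤ Real.log (1 / (s - 1)) + C) :
    HasDirichletDensity S 0 := by
  rw [density_zero_iff]
  intro m hm
  obtain ⟨T, D, C, hD, hSTD, hT⟩ := h (4 * m)
  rw [density_zero_iff] at hD
  obtain ⟨C₀, hC₀⟩ := primeSum_asymp F
  filter_upwards [hT, hD (4 * m) (by omega), hC₀,
    (tendsto_univ (F := F)).eventually_ge_atTop (2 * |C| + 2 * |C₀|), self_mem_nhdsWithin] with s hs1 hs2 hs3 hs4 hs5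
  have hs5' : (1 : ℝ) < s := hs5
  have h1 : primeIdealZetaSum S s ≤ primeIdealZetaSum T s + primeIdealZetaSum D s :=
    (pizs_mono hSTD hs5').trans (pizs_union T D hs5')
  rw [← pizs_eq] at hs1
  have h2 := (abs_le.mp hs3).1
  rw [← pizs_univ] at h2
  push_cast at hs1 hs2
  have h3 : (m : ℝ) * primeIdealZetaSum S s ≤
      m * (primeIdealZetaSum T s + primeIdealZetaSum D s) := by gcongr
  have h4 := le_abs_self C
  have h5 := le_abs_self C₀
  have h6 := abs_nonneg C
  have h7 := abs_nonneg C₀
  linarith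

end Pool.Agent.Lib.MP_2f3286_ag.PD
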