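import Pool.Agent.Lib.MP_2f3286_ag.PD.Small
import Pool.Agent.Lib.MP_2f3286_ag.BirAdelic
import Pool.Agent.Lib.MP_2f3286_ag.Koe.LocalPlace

/-!
# A section at almost all whose local points a function is zero or infinite comes from a point
-/

open IsDedekindDomain NumberField WithZero
open Pool.Agent.Lib.MP_2f3286_ag
open Pool.Agent.Lib.MP_2f3286_bir (IsPlaceOf)

namespace Pool.Agent.Lib.MP_2f3286_ag.PD

theorem geometric_of_finite {k : Type*} [Field k] [NumberField k]
    {K : Type*} [Field K] [Algebra k K] (htr : Algebra.trdeg k K = 1)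
    {Ω : Type*} [Field Ω] [Algebra K Ω] [IsAlgClosure K Ω]
    [Algebra (AlgebraicClosure k) Ω] [Algebra k Ω]
    [IsScalarTower k K Ω] [IsScalarTower k (AlgebraicClosure k) Ω]
    (u : K) (hu : ∀ c : k, u ≠ algebraMap k K c)
    (s : Gal(AlgebraicClosure k/k) →* Gal(Ω/K)) (hs : Continuous s)
    (hsec : ∀ σ a, s σ (algebraMap (AlgebraicClosure k) Ω a) =
      algebraMap (AlgebraicClosure k) Ω (σ a))
    (hfin : {v : HeightOneSpectrum (𝓞 k) | ∃ x, x ≠ 0 ∧
      LocVal s v (algebraMap K Ω u) x}.Finite) :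
    ∃ (A₀ : ValuationSubring Ω) (ψ₀ : A₀ →+* AlgebraicClosure k),
      IsPlaceOf s k (RingHom.id _) A₀ ψ₀ := by
  classical
  have hcl : IsAlgClosed Ω := IsAlgClosure.isAlgClosed K
  have halg : Algebra.IsAlgebraic K Ω := IsAlgClosure.isAlgebraic
  -- the local places
  choose ι A φ hφ using fun v : HeightOneSpectrum (𝓞 k) =>
    (⟨_, Koe.local_place s hs hsec v (IsAlgClosed.lift :
      AlgebraicClosure k →ₐ[k] AlgebraicClosure (v.adicCompletion k))⟩ :
      ∃ (ι : AlgebraicClosure k →ₐ[k] AlgebraicClosure (v.adicCompletion k))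
        (A : ValuationSubring Ω) (φ : A →+* AlgebraicClosure (v.adicCompletion k)),
        IsPlaceOf s (v.adicCompletion k)
          (ι : _ →+* AlgebraicClosure (v.adicCompletion k)) A φ)
  set B := {v : HeightOneSpectrum (𝓞 k) | ∃ x, x ≠ 0 ∧ LocVal s v (algebraMap K Ω u) x} with hB
  have hchar : ∀ v : HeightOneSpectrum (𝓞 k), CharZero (v.adicCompletion k) := fun v =>
    charZero_of_injective_algebraMap (algebraMap k (v.adicCompletion k)).injective
  have hval : ∀ v, ∀ h : algebraMap K Ω u ∈ A v, ∃ x : v.adicCompletion k,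
      φ v ⟨algebraMap K Ω u, h⟩ = algebraMap _ _ x := fun v h =>
    fixed_value (hφ v) (fun σ => (s σ).commutes u) h
  -- choose `d`
  obtain ⟨d, hd0, hd⟩ : ∃ d : k, d ≠ 0 ∧ ∀ v ∈ B, ∀ h : algebraMap K Ω u ∈ A v,
      φ v ⟨algebraMap K Ω u, h⟩ ≠ algebraMap _ _ (algebraMap k (v.adicCompletion k) d) := by
    have h1 : ({0} ∪ ⋃ v ∈ B, {d : k | ∃ h : algebraMap K Ω u ∈ A v,
        φ v ⟨algebraMap K Ω u, h⟩ =
          algebraMap _ _ (algebraMap k (v.adicCompletion k) d)}).Finite := by
      refine (Set.finite_singleton _).union (hfin.biUnion fun v _ => ?_)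
      refine Set.Subsingleton.finite ?_
      rintro d ⟨h, hd⟩ d' ⟨h', hd'⟩
      rw [hd] at hd'
      exact (algebraMap k (v.adicCompletion k)).injective
        ((algebraMap (v.adicCompletion k) (AlgebraicClosure (v.adicCompletion k))).injective hd')
    obtain ⟨d, hd⟩ := h1.exists_notMem
    simp only [Set.mem_union, Set.mem_singleton_iff, Set.mem_iUnion, Set.mem_ofPred_eq, not_or,
      not_exists] at hd
    exact ⟨d, hd.1, fun v hv h h' => hd.2 v hv h h'⟩
  let t : K := (u - algebraMap k K d)⁻¹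
  have hud : u - algebraMap k K d ≠ 0 := sub_ne_zero.mpr (hu d)
  have ht : ∀ c : k, t ≠ algebraMap k K c := by
    intro c hc
    apply hu (c⁻¹ + d)
    rw [map_add, map_inv₀, ← hc, inv_inv, sub_add_cancel]
  have hdΩ : algebraMap K Ω (algebraMap k K d) = algebraMap k Ω d :=
    (IsScalarTower.algebraMap_apply k K Ω d).symm
  have htΩ : algebraMap K Ω t = (algebraMap K Ω u - algebraMap k Ω d)⁻¹ := by
    rw [map_inv₀, map_sub, hdΩ]
  -- the values of `t`
  have hx : ∀ v, ∃ x : v.adicCompletion k,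
      (∃ h : algebraMap K Ω t ∈ A v, φ v ⟨algebraMap K Ω t, h⟩ = algebraMap _ _ x) ∧
      (v ∉ B → x = 0 ∨ x = algebraMap k (v.adicCompletion k) (-d⁻¹)) := by
    intro v
    obtain ⟨h1, h2⟩ := const_value (hφ v) d
    by_cases h3 : algebraMap K Ω u ∈ A v
    · obtain ⟨x, hx⟩ := hval v h3
      have h4 : algebraMap K Ω u - algebraMap k Ω d ∈ A v := sub_mem h3 h1
      have h5 : φ v ⟨_, h4⟩ = algebraMap _ _ (x - algebraMap k (v.adicCompletion k) d) := by
        have h6 : (⟨algebraMap K Ω u - algebraMap k Ω d, h4⟩ : A v) = ⟨_, h3⟩ - ⟨_, h1⟩ := rfl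
        rw [h6, map_sub, hx, h2, map_sub]
      have hxd : x - algebraMap k (v.adicCompletion k) d ≠ 0 := by
        intro h0
        by_cases hvB : v ∈ B
        · apply hd v hvB h3
          rw [hx, sub_eq_zero.mp h0]
        · apply hvB
          refine ⟨x, ?_, ι v, A v, φ v, hφ v, h3, hx⟩
          rw [sub_eq_zero.mp h0, Ne, map_eq_zero]
          exact hd0
      have h7 : algebraMap K Ω t ∈ A v := by
        rw [htΩ]
        refine (hφ v).2.1 ⟨_, h4⟩ ?_
        rw [h5, Ne, map_eq_zero]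
        exact hxd
      refine ⟨(x - algebraMap k (v.adicCompletion k) d)⁻¹, ⟨h7, ?_⟩, fun hvB => Or.inr ?_⟩
      · have h8 : φ v ⟨algebraMap K Ω t, h7⟩ * φ v ⟨_, h4⟩ = 1 := by
          rw [← map_mul, ← map_one (φ v)]
          congr 1
          apply Subtype.ext
          change algebraMap K Ω t * (algebraMap K Ω u - algebraMap k Ω d) = 1
          rw [htΩ, inv_mul_cancel₀]
          rw [← hdΩ, ← map_sub, Ne, map_eq_zero]
          exact hud
        rw [h5] at h8
        exact (eq_inv_of_mul_eq_one_left h8).trans (map_inv₀ _ _).symm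
      · have hx0 : x = 0 := by
          by_contra hx0
          exact hvB ⟨x, hx0, ι v, A v, φ v, hφ v, h3, hx⟩
        rw [hx0, zero_sub, map_neg, map_inv₀, inv_neg]
    · have h4 : algebraMap K Ω u - algebraMap k Ω d ∉ A v := by
        intro h5
        apply h3
        have h6 := add_mem h5 h1
        rwa [sub_add_cancel] at h6
      have h7 : algebraMap K Ω t ∈ A v := by
        rw [htΩ]
        exact ((A v).mem_or_inv_mem _).resolve_left h4
      refine ⟨0, ⟨h7, ?_⟩, fun _ => Or.inl rfl⟩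
      rw [map_zero]
      by_contra h8
      have h9 := (hφ v).2.1 ⟨_, h7⟩ h8
      change (algebraMap K Ω t)⁻¹ ∈ A v at h9
      rw [htΩ, inv_inv] at h9
      exact h4 h9
  choose x hxt hxB using hx
  -- choose the rational numbers
  have hbad : ({0} ∪ {c : ℚ | algebraMap ℚ k c = -d⁻¹} ∪
      ⋃ v ∈ B, {c : ℚ | x v = algebraMap k (v.adicCompletion k) (algebraMap ℚ k c)}).Finite := by
    refine ((Set.finite_singleton _).union ?_).union (hfin.biUnion fun v _ => ?_)
    · refine Set.Subsingleton.finite ?_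
      intro c hc c' hc'
      exact (algebraMap ℚ k).injective (hc.trans hc'.symm)
    · refine Set.Subsingleton.finite ?_
      intro c hc c' hc'
      have h1 : algebraMap k (v.adicCompletion k) (algebraMap ℚ k c) =
        algebraMap k (v.adicCompletion k) (algebraMap ℚ k c') := (hc.symm).trans hc'
      exact (algebraMap ℚ k).injective ((algebraMap k (v.adicCompletion k)).injective h1)
  obtain ⟨C, hCsub, hCcard⟩ := hbad.infinite_compl.exists_subset_card_eq (Module.finrank ℚ k)
  have hC0 : ∀ c ∈ C, c ≠ 0 ∧ algebraMap ℚ k c ≠ -d⁻¹ ∧ ∀ v ∈ B,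
      x v ≠ algebraMap k (v.adicCompletion k) (algebraMap ℚ k c) := by
    intro c hc
    have h1 := hCsub hc
    simp only [Set.mem_compl_iff, Set.mem_union, Set.mem_singleton_iff, Set.mem_iUnion,
      Set.mem_ofPred_eq, not_or, not_exists] at h1
    exact ⟨h1.1.1, h1.1.2, fun v hv => h1.2 v hv⟩
  have hTfin : (B ∪ ⋃ c ∈ C, ({v : HeightOneSpectrum (𝓞 k) | v.valuation k (algebraMap ℚ k c) ≠ 1} ∪
      {v : HeightOneSpectrum (𝓞 k) | v.valuation k (-d⁻¹ - algebraMap ℚ k c) ≠ 1})).Finite := by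
    refine hfin.union (C.finite_toSet.biUnion fun c hc => ?_)
    obtain ⟨h1, h2, -⟩ := hC0 c hc
    refine (finite_val_ne_one (k := k) ?_).union (finite_val_ne_one (k := k) ?_)
    · rw [Ne, map_eq_zero]; exact h1
    · exact sub_ne_zero.mpr h2.symm
  have hC : (Fintype.card (InfinitePlace ℚ) + (∅ : Finset (HeightOneSpectrum (𝓞 ℚ))).card ≤ 1 ∧
      Module.finrank ℚ k ≤ C.card) ∨
      (Fintype.card (InfinitePlace ℚ) + (∅ : Finset (HeightOneSpectrum (𝓞 ℚ))).card ≤ 2 ∧
        2 * Module.finrank ℚ k ≤ C.card) := by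
    left
    refine ⟨?_, hCcard.ge⟩
    rw [Finset.card_empty, add_zero, Fintype.card_le_one_iff_subsingleton]
    infer_instance
  obtain ⟨A₀, ψ₀, h1, -⟩ := BirAdelic.bir_adelic htr t ht ∅ ∅ (by simp) C hC s hs hsec
    (fun v => ι v.1) (fun v => A v.1) (fun v => φ v.1) (fun v => hφ v.1) (fun v => x v.1)
    (fun v => hxt v.1) (by
      intro v c hc
      obtain ⟨h1, h2, h3⟩ := hC0 c hc
      by_cases hv : v.1 ∈ B
      · exact h3 v.1 hv
      · rcases hxB v.1 hv with h4 | h4
        · rw [h4]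
          intro h5
          apply h1
          have h6 := h5.symm
          rwa [map_eq_zero, map_eq_zero] at h6
        · rw [h4]
          intro h5
          exact h2 ((algebraMap k (v.1.adicCompletion k)).injective h5).symm)
    hTfin.toFinset (by
      intro v hv c hc
      simp only [Set.Finite.mem_toFinset, Set.mem_union, Set.mem_iUnion, Set.mem_ofPred_eq, not_or,
        not_exists, not_not] at hv
      obtain ⟨h4, h5⟩ := hv
      obtain ⟨h6, h7⟩ := h5 c hc
      rcases hxB v.1 h4 with h8 | h8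
      · rw [h8, zero_sub, Valuation.map_neg, val_alg, h6]
      · rw [h8, ← map_sub, val_alg, h7])
  exact ⟨A₀, ψ₀, h1⟩

end Pool.Agent.Lib.MP_2f3286_ag.PD
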