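import Pool.Agent.Lib.MP_2f3286_ag.PD.Geo

/-!
# Sections whose local points reduce to a fixed point at many places
-/

open IsDedekindDomain NumberField WithZero NumberField.Set
open Pool.Agent.Lib.MP_2f3286_ag
open Pool.Agent.Lib.MP_2f3286_bir (IsPlaceOf)

namespace Pool.Agent.Lib.MP_2f3286_ag.PD

/-- If a section does not come from a rational point, then every nonconstant function `u` has, at
the places outside a set of density zero, only unit values at the local points. -/
theorem pd {k : Type*} [Field k] [NumberField k]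
    {K : Type*} [Field K] [Algebra k K] (htr : Algebra.trdeg k K = 1)
    {Ω : Type*} [Field Ω] [Algebra K Ω] [IsAlgClosure K Ω]
    [Algebra (AlgebraicClosure k) Ω] [Algebra k Ω]
    [IsScalarTower k K Ω] [IsScalarTower k (AlgebraicClosure k) Ω]
    (u : K) (hu : ∀ c : k, u ≠ algebraMap k K c)
    (s : Gal(AlgebraicClosure k/k) →* Gal(Ω/K)) (hs : Continuous s)
    (hsec : ∀ σ a, s σ (algebraMap (AlgebraicClosure k) Ω a) =
      algebraMap (AlgebraicClosure k) Ω (σ a))
    (hgeo : ¬ ∃ (A₀ : ValuationSubring Ω) (ψ₀ : A₀ →+* AlgebraicClosure k),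
      IsPlaceOf s k (RingHom.id _) A₀ ψ₀) :
    HasDirichletDensity {v : HeightOneSpectrum (𝓞 k) |
      ∃ (ι : AlgebraicClosure k →ₐ[k] AlgebraicClosure (v.adicCompletion k))
        (A : ValuationSubring Ω) (φ : A →+* AlgebraicClosure (v.adicCompletion k)),
        IsPlaceOf s (v.adicCompletion k) (ι : _ →+* AlgebraicClosure (v.adicCompletion k)) A φ ∧
        ¬ ∃ (h : algebraMap K Ω u ∈ A) (x : v.adicCompletion k),
          φ ⟨algebraMap K Ω u, h⟩ = algebraMap _ _ x ∧ Valued.v x = 1} 0 := by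
  have hcl : IsAlgClosed Ω := IsAlgClosure.isAlgClosed K
  have halg : Algebra.IsAlgebraic K Ω := IsAlgClosure.isAlgebraic
  have hfix : ∀ (u : K) (σ), s σ (algebraMap K Ω u) = algebraMap K Ω u := fun u σ =>
    (s σ).commutes u
  have hncΩ : ∀ (u : K), (∀ c : k, u ≠ algebraMap k K c) → ∀ c : k,
      algebraMap K Ω u ≠ algebraMap k Ω c := by
    intro u hu c hc
    apply hu c
    apply (algebraMap K Ω).injective
    rw [hc]
    exact IsScalarTower.algebraMap_apply k K Ω c
  have main : ∀ (u : K), (∀ c : k, u ≠ algebraMap k K c) →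
      HasDirichletDensity {v : HeightOneSpectrum (𝓞 k) |
        ∃ x, LocVal s v (algebraMap K Ω u) x ∧ Valued.v x < 1} 0 := by
    intro u hu
    refine small s hs hsec (hfix u) (hncΩ u hu) ?_
    by_contra hcon
    exact hgeo (geometric_of_finite htr u hu s hs hsec (Set.not_infinite.mp hcon))
  have hu' : ∀ c : k, u⁻¹ ≠ algebraMap k K c := by
    intro c hc
    apply hu c⁻¹
    rw [map_inv₀, ← hc, inv_inv]
  refine density_zero_mono ?_ (density_zero_union (main u hu) (main u⁻¹ hu'))
  rintro v ⟨ι, A, φ, h, hn⟩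
  have hchar : CharZero (v.adicCompletion k) := charZero_of_injective_algebraMap
    (algebraMap k (v.adicCompletion k)).injective
  by_cases h1 : algebraMap K Ω u ∈ A
  · obtain ⟨x, hx⟩ := fixed_value h (hfix u) h1
    have hx1 : Valued.v x ≠ 1 := fun h2 => hn ⟨h1, x, hx, h2⟩
    rcases lt_or_gt_of_ne hx1 with h2 | h2
    · exact Or.inl ⟨x, ⟨ι, A, φ, h, h1, hx⟩, h2⟩
    · right
      have hx0 : x ≠ 0 := by
        rintro rfl
        rw [map_zero] at h2
        exact not_lt_zero h2
      have h3 : (algebraMap K Ω u)⁻¹ ∈ A := by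
        refine h.2.1 ⟨_, h1⟩ ?_
        rw [hx, Ne, map_eq_zero]; exact hx0
      have h4 : algebraMap K Ω u⁻¹ ∈ A := by rw [map_inv₀]; exact h3
      have hu0 : algebraMap K Ω u ≠ 0 := by
        intro h0
        exact hncΩ u hu 0 (by rw [h0, map_zero])
      refine ⟨x⁻¹, ⟨ι, A, φ, h, h4, ?_⟩, ?_⟩
      · have h5 : φ ⟨_, h4⟩ * φ ⟨_, h1⟩ = 1 := by
          rw [← map_mul, ← map_one φ]
          congr 1
          apply Subtype.ext
          change algebraMap K Ω u⁻¹ * algebraMap K Ω u = 1
          rw [map_inv₀, inv_mul_cancel₀ hu0]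
        rw [hx] at h5
        exact (eq_inv_of_mul_eq_one_left h5).trans (map_inv₀ _ _).symm
      · rw [map_inv₀]
        exact inv_lt_one_of_one_lt₀ h2
  · right
    have h4 : algebraMap K Ω u⁻¹ ∈ A := by
      rw [map_inv₀]
      exact (A.mem_or_inv_mem _).resolve_left h1
    refine ⟨0, ⟨ι, A, φ, h, h4, ?_⟩, by rw [map_zero]; exact zero_lt_one⟩
    rw [map_zero]
    by_contra h5
    have h6 := h.2.1 ⟨_, h4⟩ h5
    change (algebraMap K Ω u⁻¹)⁻¹ ∈ A at h6
    rw [map_inv₀, inv_inv] at h6
    exact h1 h6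

end Pool.Agent.Lib.MP_2f3286_ag.PD
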