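import Pool.Agent.Lib.MP_2f3286_ag.PD.Main

/-!
# Two sections whose local points are congruent at many places
-/

open IsDedekindDomain NumberField WithZero NumberField.Set
open Pool.Agent.Lib.MP_2f3286_ag
open Pool.Agent.Lib.MP_2f3286_bir (IsPlaceOf)

namespace Pool.Agent.Lib.MP_2f3286_ag.PD

/-- two different local numbers can be separated by the parity of a valuation -/
theorem exists_odd_pair {k : Type*} [Field k] [NumberField k] (v : HeightOneSpectrum (𝓞 k))
    {x x' : v.adicCompletion k} (hx : x ≠ x') :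
    ∃ (a : k) (c : v.adicCompletion k),
      Valued.v ((x - algebraMap k (v.adicCompletion k) a) *
        (x' - algebraMap k (v.adicCompletion k) a) * c ^ 2) = exp (-1 : ℤ) := by
  obtain ⟨π, hπ⟩ := v.valuation_exists_uniformizer k
  set P := algebraMap k (v.adicCompletion k) π with hP
  have hPv : Valued.v P = exp (-1 : ℤ) := by rw [hP, val_alg, hπ]
  have hx0 : Valued.v (x' - x) ≠ 0 := by
    rw [Ne, Valuation.zero_iff]
    exact sub_ne_zero.mpr hx.symm
  obtain ⟨n, hn⟩ : ∃ n : ℤ, Valued.v (x' - x) = exp n := ⟨_, (exp_log hx0).symm⟩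
  obtain ⟨m, j, hm1, hm2⟩ : ∃ (m : ℕ) (j : ℤ), -(m : ℤ) < n ∧ n - m + 2 * j = -1 := by
    have h2 := neg_abs_le n
    have h3 := abs_nonneg n
    have h1 : ((n + 1 + 2 * |n|).toNat : ℤ) = n + 1 + 2 * |n| := Int.toNat_of_nonneg (by omega)
    exact ⟨(n + 1 + 2 * |n|).toNat, |n|, by omega, by omega⟩
  obtain ⟨a, ha⟩ := exists_approx v (x + P ^ m) (m + 1)
  set Y := algebraMap k (v.adicCompletion k) a with hY
  have hPm : Valued.v (P ^ m) = exp (-(m : ℤ)) := by
    rw [map_pow, hPv, ← exp_nsmul]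
    simp
  have h1 : Valued.v (x - Y) = exp (-(m : ℤ)) := by
    have h2 : x - Y = (x + P ^ m - Y) - P ^ m := by ring
    rw [h2, Valuation.map_sub_eq_of_lt_right, hPm]
    rw [hPm]
    refine lt_of_le_of_lt ha ?_
    rw [exp_lt_exp]
    push_cast
    omega
  have h3 : Valued.v (x' - Y) = exp n := by
    have h4 : x' - Y = (x' - x) + (x - Y) := by ring
    rw [h4, Valuation.map_add_eq_of_lt_left, hn]
    rw [h1, hn, exp_lt_exp]
    exact hm1
  refine ⟨a, P ^ (-j), ?_⟩
  have h5 : Valued.v (P ^ (-j)) = exp j := by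
    rw [map_zpow₀, hPv, ← exp_zsmul]
    simp
  rw [map_mul, map_mul, h1, h3, map_pow, h5, ← exp_nsmul, ← exp_add, ← exp_add]
  congr 1
  simp only [nsmul_eq_mul, Nat.cast_ofNat]
  omega

section

variable {k : Type*} [Field k] [NumberField k]
  {K : Type*} [Field K] [Algebra k K]
  {Ω : Type*} [Field Ω] [Algebra K Ω] [Algebra (AlgebraicClosure k) Ω] [Algebra k Ω]
  [IsScalarTower k K Ω] [IsScalarTower k (AlgebraicClosure k) Ω]

omit [Algebra k K] [IsScalarTower k K Ω] in
theorem sub_value {s : Gal(AlgebraicClosure k/k) →* Gal(Ω/K)} {v : HeightOneSpectrum (𝓞 k)}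
    {u : Ω} {x : v.adicCompletion k} (h : LocVal s v u x) (a : k) :
    LocVal s v (u - algebraMap k Ω a) (x - algebraMap k (v.adicCompletion k) a) := by
  obtain ⟨ι, A, φ, h, hxA, hx⟩ := h
  obtain ⟨h1, h2⟩ := const_value h a
  refine ⟨ι, A, φ, h, sub_mem hxA h1, ?_⟩
  have h4 : (⟨u - algebraMap k Ω a, sub_mem hxA h1⟩ : A) = ⟨u, hxA⟩ - ⟨_, h1⟩ := rfl
  rw [h4, map_sub, hx, h2, map_sub]

omit [Algebra k K] [IsScalarTower k K Ω] in
theorem square_value [Algebra.IsAlgebraic K Ω] [IsAlgClosed Ω]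
    {s : Gal(AlgebraicClosure k/k) →* Gal(Ω/K)}
    {v : HeightOneSpectrum (𝓞 k)} {f y : Ω} {x : 𝓞 k} (hx : x ≠ 0) (hy : ∀ σ, s σ y = y)
    (hf : f = algebraMap k Ω x * y ^ 2) {g : v.adicCompletion k} (hg : LocVal s v f g) :
    ∃ z : v.adicCompletion k, g = algebraMap k (v.adicCompletion k) x * z ^ 2 := by
  obtain ⟨ι, A, φ, h, hxA, hx'⟩ := hg
  exact sq_value h (fun h0 => hx (RingOfIntegers.ext h0)) hy hf hxA hx'

theorem exists_classes [Algebra.IsAlgebraic K Ω] [IsAlgClosed Ω]
    (s : Gal(AlgebraicClosure k/k) →* Gal(Ω/K)) (hs : Continuous s)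
    (hsec : ∀ σ a, s σ (algebraMap (AlgebraicClosure k) Ω a) =
      algebraMap (AlgebraicClosure k) Ω (σ a)) (u : K) (hu : ∀ c : k, u ≠ algebraMap k K c) :
    ∃ X : k → 𝓞 k, (∀ a, X a ≠ 0) ∧ ∀ (a : k) (v : HeightOneSpectrum (𝓞 k))
      (x : v.adicCompletion k), LocVal s v (algebraMap K Ω u) x →
        ∃ z : v.adicCompletion k, x - algebraMap k (v.adicCompletion k) a =
          algebraMap k (v.adicCompletion k) (X a) * z ^ 2 := by
  have hf : ∀ a : k, ∀ σ, s σ (algebraMap K Ω u - algebraMap k Ω a) =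
      algebraMap K Ω u - algebraMap k Ω a := by
    intro a σ
    rw [map_sub, IsScalarTower.algebraMap_apply k K Ω, AlgEquiv.commutes, AlgEquiv.commutes]
  have hf0 : ∀ a : k, algebraMap K Ω u - algebraMap k Ω a ≠ 0 := by
    intro a h
    apply hu a
    apply (algebraMap K Ω).injective
    rw [sub_eq_zero.mp h]
    exact IsScalarTower.algebraMap_apply k K Ω a
  choose X hX Y hY hY0 hXY using fun a : k => exists_square_int s hs hsec (hf a) (hf0 a)
  exact ⟨X, hX, fun a v x hx => square_value (hX a) (hY a) (hXY a) (sub_value hx a)⟩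

end

/-- If the values of `u` at the local places of `s` are congruent to those of `u'` at the local
places of `s'`, at a set of places which does not have density zero, then they are equal at almost
all places. -/
theorem agree {k : Type*} [Field k] [NumberField k]
    {K : Type*} [Field K] [Algebra k K] (htr : Algebra.trdeg k K = 1)
    {Ω : Type*} [Field Ω] [Algebra K Ω] [IsAlgClosure K Ω]
    [Algebra (AlgebraicClosure k) Ω] [Algebra k Ω]
    [IsScalarTower k K Ω] [IsScalarTower k (AlgebraicClosure k) Ω]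
    {K' : Type*} [Field K'] [Algebra k K']
    {Ω' : Type*} [Field Ω'] [Algebra K' Ω'] [IsAlgClosure K' Ω']
    [Algebra (AlgebraicClosure k) Ω'] [Algebra k Ω']
    [IsScalarTower k K' Ω'] [IsScalarTower k (AlgebraicClosure k) Ω']
    (u : K) (hu : ∀ c : k, u ≠ algebraMap k K c) (u' : K') (hu' : ∀ c : k, u' ≠ algebraMap k K' c)
    (s : Gal(AlgebraicClosure k/k) →* Gal(Ω/K)) (hs : Continuous s)
    (hsec : ∀ σ a, s σ (algebraMap (AlgebraicClosure k) Ω a) =
      algebraMap (AlgebraicClosure k) Ω (σ a))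
    (hgeo : ¬ ∃ (A₀ : ValuationSubring Ω) (ψ₀ : A₀ →+* AlgebraicClosure k),
      IsPlaceOf s k (RingHom.id _) A₀ ψ₀)
    (s' : Gal(AlgebraicClosure k/k) →* Gal(Ω'/K')) (hs' : Continuous s')
    (hsec' : ∀ σ a, s' σ (algebraMap (AlgebraicClosure k) Ω' a) =
      algebraMap (AlgebraicClosure k) Ω' (σ a))
    (hcong : ¬ HasDirichletDensity {v : HeightOneSpectrum (𝓞 k) | ∃ x x',
      LocVal s v (algebraMap K Ω u) x ∧ LocVal s' v (algebraMap K' Ω' u') x' ∧
        Valued.v (x - x') < 1} 0) :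
    {v : HeightOneSpectrum (𝓞 k) | ∃ x x', LocVal s v (algebraMap K Ω u) x ∧
      LocVal s' v (algebraMap K' Ω' u') x' ∧ x ≠ x'}.Finite := by
  have hcl : IsAlgClosed Ω := IsAlgClosure.isAlgClosed K
  have halg : Algebra.IsAlgebraic K Ω := IsAlgClosure.isAlgebraic
  have hcl' : IsAlgClosed Ω' := IsAlgClosure.isAlgClosed K'
  have halg' : Algebra.IsAlgebraic K' Ω' := IsAlgClosure.isAlgebraic
  obtain ⟨X, hX, hval⟩ := exists_classes s hs hsec u hu
  obtain ⟨X', hX', hval'⟩ := exists_classes s' hs' hsec' u' hu'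
  by_contra hinf
  apply hcong
  refine density_zero_of_classes (I := k) (fun a => X a * X' a)
    (fun a => mul_ne_zero (hX a) (hX' a)) ?_ _ fun a => ?_
  · refine Set.Infinite.mono ?_ hinf
    rintro v ⟨x, x', hx, hx', hne⟩
    obtain ⟨a, c, hac⟩ := exists_odd_pair v hne
    obtain ⟨z, hz⟩ := hval a v x hx
    obtain ⟨z', hz'⟩ := hval' a v x' hx'
    refine ⟨a, z * z' * c, ?_⟩
    rw [← hac, hz, hz']
    congr 1
    have h1 : ((X a * X' a : 𝓞 k) : k) = (X a : k) * (X' a : k) := rfl
    rw [h1, map_mul]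
    ring
  · have hua : ∀ c : k, u - algebraMap k K a ≠ algebraMap k K c := by
      intro c hc
      apply hu (c + a)
      rw [map_add, ← hc]; ring
    refine ⟨_, pd htr (u - algebraMap k K a) hua s hs hsec hgeo, ?_⟩
    rintro v ⟨x, x', hx, hx', hxx'⟩ hv
    -- `x - a` is a unit
    have h1 : Valued.v (x - algebraMap k (v.adicCompletion k) a) = 1 := by
      obtain ⟨ι, A, φ, h, hA, hφ⟩ := sub_value hx a
      obtain ⟨h2, y, h3, h4⟩ := by_contra fun hn => hv ⟨ι, A, φ, h, hn⟩
      have h5 : algebraMap K Ω (u - algebraMap k K a) = algebraMap K Ω u - algebraMap k Ω a := by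
        rw [map_sub, ← IsScalarTower.algebraMap_apply]
      have h6 : (⟨algebraMap K Ω (u - algebraMap k K a), h2⟩ : A) = ⟨_, hA⟩ := Subtype.ext h5
      rw [h6, hφ] at h3
      rw [(algebraMap (v.adicCompletion k) (AlgebraicClosure (v.adicCompletion k))).injective h3]
      exact h4
    obtain ⟨z, hz⟩ := hval a v x hx
    obtain ⟨z', hz'⟩ := hval' a v x' hx'
    have h2 : x - algebraMap k (v.adicCompletion k) a ≠ 0 := by
      intro h0
      rw [h0, map_zero] at h1
      exact zero_ne_one h1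
    refine ⟨z * z' / (x - algebraMap k (v.adicCompletion k) a), ?_⟩
    have h3 : ((X a * X' a : 𝓞 k) : k) = (X a : k) * (X' a : k) := rfl
    have h4 : algebraMap k (v.adicCompletion k) ((X a * X' a : 𝓞 k) : k) *
        (z * z' / (x - algebraMap k (v.adicCompletion k) a)) ^ 2 - 1 =
        -(x - x') / (x - algebraMap k (v.adicCompletion k) a) := by
      have h5 : algebraMap k (v.adicCompletion k) ((X a * X' a : 𝓞 k) : k) *
          (z * z' / (x - algebraMap k (v.adicCompletion k) a)) ^ 2 =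
          (x - algebraMap k (v.adicCompletion k) a) * (x' - algebraMap k (v.adicCompletion k) a) /
            (x - algebraMap k (v.adicCompletion k) a) ^ 2 := by
        rw [h3, map_mul, div_pow]
        rw [mul_div_assoc']
        congr 1
        nth_rewrite 1 [hz]
        rw [hz']
        ring
      rw [h5]
      field_simp
      ring
    rw [h4, map_div₀, h1, div_one, Valuation.map_neg]
    exact hxx'

end Pool.Agent.Lib.MP_2f3286_ag.PD
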