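import Pool.Agent.Lib.MP_2f3286_ag.PD.Loc
import Pool.Agent.Lib.MP_2f3286_ag.PD.Char
import Pool.Agent.Lib.MP_2f3286_ag.PD.Dir

/-!
# The places at which a fixed element is small have density zero
-/

open IsDedekindDomain NumberField WithZero Filter Topology NumberField.Set
open Pool.Agent.Lib.MP_2f3286_ag
open Pool.Agent.Lib.MP_2f3286_bir (IsPlaceOf)

namespace Pool.Agent.Lib.MP_2f3286_ag.PD

variable {k : Type*} [Field k] [NumberField k] {K : Type*} [Field K]
  {Ω : Type*} [Field Ω] [Algebra K Ω] [Algebra (AlgebraicClosure k) Ω]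

/-- the element `u` has the value `x` at a place of which `s` is, over `k_v`, the section -/
def LocVal (s : Gal(AlgebraicClosure k/k) →* Gal(Ω/K)) (v : HeightOneSpectrum (𝓞 k)) (u : Ω)
    (x : v.adicCompletion k) : Prop :=
  ∃ (ι : AlgebraicClosure k →ₐ[k] AlgebraicClosure (v.adicCompletion k))
    (A : ValuationSubring Ω) (φ : A →+* AlgebraicClosure (v.adicCompletion k)),
    IsPlaceOf s (v.adicCompletion k) (ι : _ →+* AlgebraicClosure (v.adicCompletion k)) A φ ∧
    ∃ h : u ∈ A, φ ⟨u, h⟩ = algebraMap _ _ x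

variable [Algebra k Ω] [IsScalarTower k (AlgebraicClosure k) Ω]

theorem sq_value {s : Gal(AlgebraicClosure k/k) →* Gal(Ω/K)} {v : HeightOneSpectrum (𝓞 k)}
    {ι : AlgebraicClosure k →ₐ[k] AlgebraicClosure (v.adicCompletion k)}
    {A : ValuationSubring Ω} {φ : A →+* AlgebraicClosure (v.adicCompletion k)}
    (h : IsPlaceOf s (v.adicCompletion k) (ι : _ →+* AlgebraicClosure (v.adicCompletion k)) A φ)
    {f y : Ω} {x : k} (hx : x ≠ 0) (hy : ∀ σ, s σ y = y) (hf : f = algebraMap k Ω x * y ^ 2)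
    (hfA : f ∈ A) {g : v.adicCompletion k} (hg : φ ⟨f, hfA⟩ = algebraMap _ _ g) :
    ∃ z : v.adicCompletion k, g = algebraMap k (v.adicCompletion k) x * z ^ 2 := by
  have hchar : CharZero (v.adicCompletion k) := charZero_of_injective_algebraMap
    (algebraMap k (v.adicCompletion k)).injective
  obtain ⟨hxA, hxv⟩ := const_value h x
  have hyA : y ∈ A := by
    by_cases hy0 : y = 0
    · rw [hy0]; exact zero_mem _
    rcases A.mem_or_inv_mem y with h1 | h1
    · exact h1
    · by_contra hcon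
      have h2 : φ ⟨y⁻¹, h1⟩ = 0 := by
        by_contra h3
        have h4 := h.2.1 ⟨y⁻¹, h1⟩ h3
        change (y⁻¹)⁻¹ ∈ A at h4
        rw [inv_inv] at h4
        exact hcon h4
      have h3 : (⟨algebraMap k Ω x, hxA⟩ : A) = ⟨f, hfA⟩ * ⟨y⁻¹, h1⟩ ^ 2 := by
        apply Subtype.ext
        change algebraMap k Ω x = f * (y⁻¹) ^ 2
        rw [hf]
        field_simp
      rw [h3, map_mul, map_pow, h2, zero_pow two_ne_zero, mul_zero] at hxv
      have h4 := hxv.symm
      rw [map_eq_zero, map_eq_zero] at h4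
      exact hx h4
  obtain ⟨z, hz⟩ := fixed_value h hy hyA
  refine ⟨z, ?_⟩
  apply (algebraMap (v.adicCompletion k) (AlgebraicClosure (v.adicCompletion k))).injective
  have h3 : (⟨f, hfA⟩ : A) = ⟨algebraMap k Ω x, hxA⟩ * ⟨y, hyA⟩ ^ 2 := Subtype.ext hf
  rw [← hg, h3, map_mul, map_pow, hxv, hz, map_mul, map_pow]

theorem finite_mem_ideal {x : 𝓞 k} (hx : x ≠ 0) :
    {v : HeightOneSpectrum (𝓞 k) | x ∈ v.asIdeal}.Finite := by
  have hx0 : (x : k) ≠ 0 := fun h => hx (RingOfIntegers.ext h)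
  refine (finite_val_ne_one (k := k) hx0).subset fun v hv => ?_
  simp only [Set.mem_ofPred_eq] at hv ⊢
  intro h1
  exact (HeightOneSpectrum.valuation_eq_one_iff_notMem (K := k) v).mp h1 hv

/-- The general principle. `X a` is, for `a` in an index set, an integer of `k`. If for infinitely
many places some `X a` has odd valuation, and for every finite set of indices `S` is, up to a set of
density zero, contained in the set of places at which the `X a` are squares, then `S` has density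
zero. -/
theorem density_zero_of_classes {I : Type*} (X : I → 𝓞 k) (hX : ∀ a, X a ≠ 0)
    (hinf : {v : HeightOneSpectrum (𝓞 k) | ∃ (a : I) (z : v.adicCompletion k),
      Valued.v (algebraMap k (v.adicCompletion k) (X a) * z ^ 2) = exp (-1 : ℤ)}.Infinite)
    (S : Set (HeightOneSpectrum (𝓞 k)))
    (hS : ∀ a, ∃ D : Set (HeightOneSpectrum (𝓞 k)), HasDirichletDensity D 0 ∧ ∀ v ∈ S, v ∉ D →
      ∃ z : v.adicCompletion k,
        Valued.v (algebraMap k (v.adicCompletion k) (X a) * z ^ 2 - 1) < 1) :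
    HasDirichletDensity S 0 := by
  classical
  have key : ∀ m : ℕ, ∃ F : Finset I, F.card = m ∧
      ∀ a ∈ F, ∀ b ∈ F, a ≠ b → ¬ IsSquare ((X a : k) * (X b : k)) := by
    intro m
    induction m with
    | zero => exact ⟨∅, rfl, by simp⟩
    | succ m ih =>
      obtain ⟨F, hF, hFp⟩ := ih
      have hfin : (⋃ a ∈ F, {v : HeightOneSpectrum (𝓞 k) | X a ∈ v.asIdeal}).Finite :=
        F.finite_toSet.biUnion fun a _ => finite_mem_ideal (hX a)
      obtain ⟨v, ⟨a, z, haz⟩, hv⟩ := hinf.exists_notMem_finite hfin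
      simp only [Set.mem_iUnion, Set.mem_ofPred_eq, not_exists] at hv
      have haF : a ∉ F := fun h => not_isSquare v (hv a h) haz ⟨(X a : k), rfl⟩
      refine ⟨insert a F, by rw [Finset.card_insert_of_notMem haF, hF], ?_⟩
      intro b hb c hc hbc
      rcases Finset.mem_insert.mp hb with rfl | hb' <;> rcases Finset.mem_insert.mp hc with rfl | hc'
      · exact absurd rfl hbc
      · exact not_isSquare v (hv c hc') haz
      · rw [mul_comm]
        exact not_isSquare v (hv b hb') haz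
      · exact hFp b hb' c hc' hbc
  apply density_zero_of_split
  intro m
  obtain ⟨F, hF, hFp⟩ := key m
  choose D hD hSD using hS
  obtain ⟨C, hC⟩ := density_many k (J := F) (fun i => X i) (fun i => hX i)
    (fun i j hij => hFp i i.2 j j.2 (fun h => hij (Subtype.ext h)))
  rw [Fintype.card_coe, hF] at hC
  have h2 : (2 : 𝓞 k) ≠ 0 := two_ne_zero
  refine ⟨_, ({v : HeightOneSpectrum (𝓞 k) | (2 : 𝓞 k) ∈ v.asIdeal} ∪
    ⋃ a ∈ F, {v : HeightOneSpectrum (𝓞 k) | X a ∈ v.asIdeal}) ∪ ⋃ a ∈ F, D a, C, ?_, ?_, hC⟩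
  · refine density_zero_union (density_zero_union (density_zero_finite (finite_mem_ideal h2)) ?_) ?_
    · exact density_zero_biUnion F fun a _ => density_zero_finite (finite_mem_ideal (hX a))
    · exact density_zero_biUnion F fun a _ => hD a
  · intro v hv
    by_cases hmem : v ∈ ({v : HeightOneSpectrum (𝓞 k) | (2 : 𝓞 k) ∈ v.asIdeal} ∪
      ⋃ a ∈ F, {v : HeightOneSpectrum (𝓞 k) | X a ∈ v.asIdeal}) ∪ ⋃ a ∈ F, D a
    · exact Or.inr hmem
    · left
      simp only [Set.mem_union, Set.mem_iUnion, Set.mem_ofPred_eq, not_or, not_exists] at hmem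
      obtain ⟨⟨h3, h4⟩, h5⟩ := hmem
      refine ⟨h3, fun i => ⟨h4 i i.2, ?_⟩⟩
      obtain ⟨z, hz⟩ := hSD i v hv (h5 i i.2)
      exact residue_root v (X i) (h4 i i.2) z hz

theorem small [Algebra.IsAlgebraic K Ω] [IsAlgClosed Ω]
    (s : Gal(AlgebraicClosure k/k) →* Gal(Ω/K)) (hs : Continuous s)
    (hsec : ∀ σ a, s σ (algebraMap (AlgebraicClosure k) Ω a) =
      algebraMap (AlgebraicClosure k) Ω (σ a))
    {u : Ω} (hu : ∀ σ, s σ u = u) (hnc : ∀ c : k, u ≠ algebraMap k Ω c)
    (hinf : {v : HeightOneSpectrum (𝓞 k) | ∃ x, x ≠ 0 ∧ LocVal s v u x}.Infinite) :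
    HasDirichletDensity {v : HeightOneSpectrum (𝓞 k) | ∃ x, LocVal s v u x ∧ Valued.v x < 1} 0 := by
  have hf : ∀ a : {a : k // a ≠ 0}, ∀ σ, s σ (1 - u * algebraMap k Ω a⁻¹) =
      1 - u * algebraMap k Ω a⁻¹ := by
    intro a σ
    rw [map_sub, map_one, map_mul, hu, IsScalarTower.algebraMap_apply k (AlgebraicClosure k) Ω, hsec,
      AlgEquiv.commutes]
  have hf0 : ∀ a : {a : k // a ≠ 0}, 1 - u * algebraMap k Ω (a : k)⁻¹ ≠ 0 := by
    intro a h
    apply hnc a
    have h1 : algebraMap k Ω (a : k) ≠ 0 := by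
      rw [Ne, map_eq_zero]; exact a.2
    rw [map_inv₀] at h
    have h2 : u * (algebraMap k Ω (a : k))⁻¹ = 1 := (sub_eq_zero.mp h).symm
    rw [← div_eq_mul_inv, div_eq_one_iff_eq h1] at h2
    exact h2
  choose X hX Y hY hY0 hXY using fun a : {a : k // a ≠ 0} =>
    exists_square_int s hs hsec (hf a) (hf0 a)
  -- the value of `1 - u / a`
  have hval : ∀ (a : {a : k // a ≠ 0}) (v : HeightOneSpectrum (𝓞 k)) (x : v.adicCompletion k),
      LocVal s v u x → ∃ z : v.adicCompletion k,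
        1 - x / algebraMap k (v.adicCompletion k) a =
          algebraMap k (v.adicCompletion k) (X a) * z ^ 2 := by
    rintro a v x ⟨ι, A, φ, h, hxA, hx⟩
    have hchar : CharZero (v.adicCompletion k) := charZero_of_injective_algebraMap
      (algebraMap k (v.adicCompletion k)).injective
    obtain ⟨h1, h2⟩ := const_value h (a : k)⁻¹
    have h3 : 1 - u * algebraMap k Ω (a : k)⁻¹ ∈ A := sub_mem (one_mem _) (mul_mem hxA h1)
    refine sq_value h (f := 1 - u * algebraMap k Ω (a : k)⁻¹) (y := Y a) (x := (X a : k))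
      (fun h0 => hX a (RingOfIntegers.ext h0)) (hY a) (hXY a) h3 ?_
    have h4 : (⟨1 - u * algebraMap k Ω (a : k)⁻¹, h3⟩ : A) = 1 - ⟨u, hxA⟩ * ⟨_, h1⟩ := rfl
    rw [h4, map_sub, map_one, map_mul, hx, h2, map_sub, map_one, div_eq_mul_inv, map_mul, map_inv₀]
  refine density_zero_of_classes X hX ?_ _ fun a => ?_
  · refine hinf.mono ?_
    rintro v ⟨x, hx0, hx⟩
    obtain ⟨a, ha, hodd⟩ := exists_odd v hx0
    obtain ⟨z, hz⟩ := hval ⟨a, ha⟩ v x hx
    exact ⟨⟨a, ha⟩, z, by rw [← hz]; exact hodd⟩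
  · refine ⟨_, density_zero_finite (finite_val_ne_one (k := k) a.2), ?_⟩
    rintro v ⟨x, hx, hx1⟩ hv
    simp only [Set.mem_ofPred_eq, not_not] at hv
    obtain ⟨z, hz⟩ := hval a v x hx
    refine ⟨z, ?_⟩
    rw [← hz]
    have h1 : 1 - x / algebraMap k (v.adicCompletion k) (a : k) - 1 =
        -(x / algebraMap k (v.adicCompletion k) (a : k)) := by ring
    rw [h1, Valuation.map_neg, map_div₀, val_alg, hv, div_one]
    exact hx1

end Pool.Agent.Lib.MP_2f3286_ag.PD
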